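import Mathlib
import Pool.Agent.TH767.B.Main
import Pool.Agent.TH767.B.PowB

/-!
In ZFC, if `κ` is completely characterizable, then `2 ^ κ` and all the iterated powers
`2 ^ (2 ^ κ)`, … are homogeneously characterizable (and so completely characterizable).
-/

set_option autoImplicit false

namespace Pool.Agent.Results.MP_cad5e4_lc.PowerSetHom

open Pool.Agent.TH767.B Cardinal

/-- `2 ^ κ`, `2 ^ (2 ^ κ)`, … (`n + 1` times) are homogeneously characterizable and completely
characterizable, for every completely characterizable `κ`. -/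
theorem result : ∀ κ : Cardinal.{0}, Ch κ → ∀ n : ℕ,
    HomCh ((fun μ : Cardinal.{0} => 2 ^ μ)^[n + 1] κ) ∧
    Ch ((fun μ : Cardinal.{0} => 2 ^ μ)^[n + 1] κ) := by
  have key : ∀ κ : Cardinal.{0}, Ch κ → HomCh (2 ^ κ) := fun κ h =>
    homCh_of_ch (ch_two_pow h) (h.1.trans_lt (cantor κ)).ne'
  have hch : ∀ κ : Cardinal.{0}, Ch κ → ∀ n : ℕ,
      Ch ((fun μ : Cardinal.{0} => 2 ^ μ)^[n] κ) := by
    intro κ h n
    induction n with
    | zero => exact h
    | succ n ih =>
      rw [Function.iterate_succ_apply']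
      exact ch_two_pow ih
  intro κ h n
  refine ⟨?_, hch κ h (n + 1)⟩
  rw [Function.iterate_succ_apply']
  exact key _ (hch κ h n)

end Pool.Agent.Results.MP_cad5e4_lc.PowerSetHom
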